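import Pool.Agent.ASD.Stmts3
import Pool.Agent.Helper76_ASO.FUW

/-!
# Squad ASD, row FUD: fusion of the subpairs (copy of the proof of row FUW of squad ASO by helper76)
-/

open scoped BigOperators

set_option autoImplicit false

noncomputable section

namespace Pool.Agent.PP.SD.H87

open Pool.Agent.Helper51_AWC Pool.Agent.Helper79_WRA Pool.Agent.PP Pool.Agent.PP.KF
open Pool.Agent.PP.K9 Pool.Agent.PP.K9.H97 Pool.Agent.PP.H75 Pool.Agent.PP.T3 Pool.Agent.PP.SO
open Pool.Agent.PP.SO.H76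

attribute [local instance] Ideal.Quotient.field

/-- FUD -/
theorem fud : FudStmt := by
  intro ℓ _ M _ hM V₀ G _ _ _ _ E₀ _ B hB W W' w f hw hfW hfs hcj
  have hF : GoodF ℓ (FF M) := H50.fld ℓ Fact.out M hM
  obtain ⟨V, hV⟩ : ∃ V, V = B.i.range := ⟨_, rfl⟩
  obtain ⟨C, hC⟩ : ∃ C, C = B.C W := ⟨_, rfl⟩
  have hld := hB.ld
  rw [← hV] at hld
  have memC : ∀ (W : Subgroup V₀) (x : G), x ∈ B.C W ↔ ∀ v ∈ W, B.i v * x = x * B.i v := by
    intro W x
    unfold Bk.C
    rw [Subgroup.mem_centralizer_iff]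
    constructor
    · intro h v hv
      exact h _ ⟨v, hv, rfl⟩
    · rintro h _ ⟨v, hv, rfl⟩
      exact h v hv
  have hiV : ∀ v, B.i v ∈ V := fun v => by rw [hV]; exact ⟨v, rfl⟩
  have hVC : V ≤ C := by
    intro x hx
    rw [hC, memC]
    intro v _
    exact hld.ab _ (hiV v) _ hx
  have hXC : Subgroup.centralizer (V : Set G) ≤ C := by
    intro x hx
    rw [hC, memC]
    intro v _
    exact Subgroup.mem_centralizer_iff.1 hx _ (hiV v)
  have hXN : Subgroup.centralizer (V : Set G) ≤ Subgroup.normalizer (V : Set G) :=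
    Subgroup.centralizer_le_normalizer _
  have hb := hB.lb W
  have hb' := hB.lb W'
  have hbx0 : Bx C (B.b W) := by rw [hC]; exact hb.blk
  have hgam : mulF (br V (B.b W)) B.g = B.g := by rw [hV]; exact hb.gam
  have hgam' : mulF (br V (B.b W')) B.g = B.g := by rw [hV]; exact hb'.gam
  have hund : mulF (fun t : C => B.e t) (fun t : C => B.b W t) = fun t : C => B.b W t := by
    subst hC
    exact hb.und
  have hcl : IsCl (fun t : C => B.e t) := fun x y => hld.blk.1.1 x y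
  -- the defect group
  have htp : Tp ℓ (fun t : C => B.b W t) (V.subgroupOf C) := by
    refine ⟨hld.tp.pg.comap_of_injective C.subtype C.subtype_injective,
      gd_sub hXC (gd_of_gam hld.gam hgam), fun Q hQ hgd => ?_⟩
    have h1 : Gd (fun t : C => B.e t) Q := gd_of_mul hF hcl hbx0.blk.1.1 hund hQ hgd
    have h2 := gd_map h1
    have h3 := hld.tp.mx (Q.map C.subtype) (hQ.map _) h2
    rw [card_sub hVC]
    rwa [Subgroup.card_map_of_injective C.subtype_injective] at h3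
  obtain ⟨hf1, ⟨hf2, -⟩, -⟩ := H69.fmg ℓ M hM C _ hbx0.blk _ htp
  have hext : PP.ext0 C (fun t : C => B.b W t) = B.b W := by
    funext x
    by_cases hx : x ∈ C
    · rw [H46.ext0_of_mem _ hx]
    · rw [H46.ext0_of_not_mem _ hx, hbx0.supp x hx]
  have hbx := bx_of hVC hXC hXN hf2
  rw [hext] at hbx
  -- the conjugate of `V`
  have hcomm : ∀ x, w⁻¹ * x * w ∈ V → x ∈ C := by
    intro x hx
    rw [hC, memC]
    intro v hv
    obtain ⟨v', hv', rfl⟩ := hfs v hv
    rw [← hw v' hv']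
    have h1 := hld.ab _ (hiV v') _ hx
    have h2 : w * B.i v' * w⁻¹ * x = w * (B.i v' * (w⁻¹ * x * w)) * w⁻¹ := by group
    rw [h2, h1]
    group
  have hQC : conjS w V ≤ C := by
    intro x hx
    rw [T3.H62.mem_conjS] at hx
    exact hcomm x hx
  have hcQ : Subgroup.centralizer (conjS w V : Set G) ≤ C := by
    intro x hx
    rw [hC, memC]
    intro v hv
    obtain ⟨v', hv', rfl⟩ := hfs v hv
    rw [← hw v' hv']
    exact Subgroup.mem_centralizer_iff.1 hx _ ((T3.H62.conjS_mem_iff _).2 (hiV v'))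
  have hQp : IsPGroup ℓ ((conjS w V).subgroupOf C) :=
    (hld.tp.pg.map _).comap_of_injective C.subtype C.subtype_injective
  have hQg : Gd (fun t : C => B.b W t) ((conjS w V).subgroupOf C) := by
    refine gd_sub hcQ ?_
    rw [← hcj]
    exact gd_cj (gd_of_gam hld.gam hgam') w
  obtain ⟨c, hc⟩ := hf1 _ hQp hQg
  have hcC : ∀ v ∈ W, B.i v * (c : G) = (c : G) * B.i v := by
    have h1 : (c : G) ∈ B.C W := by
      rw [← hC]
      exact c.2
    exact (memC W c).1 h1
  obtain ⟨n, hn⟩ : ∃ n : G, n = (c : G)⁻¹ * w := ⟨_, rfl⟩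
  have h4 : ∀ v ∈ V, n * v * n⁻¹ ∈ V := by
    intro v hv
    have h5 : w * v * w⁻¹ ∈ conjS w V := (T3.H62.conjS_mem_iff v).2 hv
    have h6 : (⟨w * v * w⁻¹, hQC h5⟩ : C) ∈ (conjS w V).subgroupOf C := h5
    have h7 := hc h6
    rw [T3.H62.mem_conjS] at h7
    have h8 : (c : G)⁻¹ * (w * v * w⁻¹) * c ∈ V := h7
    rwa [show n * v * n⁻¹ = (c : G)⁻¹ * (w * v * w⁻¹) * c by rw [hn]; group]
  have hnN : n ∈ Subgroup.normalizer (V : Set G) := by
    have h9 : conjS n V = V := by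
      apply Subgroup.eq_of_le_of_card_ge
      · intro y hy
        rw [T3.H62.mem_conjS] at hy
        have := h4 _ hy
        rwa [show n * (n⁻¹ * y * n) * n⁻¹ = y by group] at this
      · rw [T3.H62.card_conjS']
    rw [Subgroup.mem_normalizer_iff]
    intro v
    conv_rhs => rw [← h9]
    rw [T3.H62.mem_conjS, show n⁻¹ * (n * v * n⁻¹) * n = v by group]
  have hnv : ∀ v ∈ W', n * B.i v * n⁻¹ = B.i (f v) := by
    intro v hv
    have h1 : n * B.i v * n⁻¹ = (c : G)⁻¹ * (w * B.i v * w⁻¹) * c := by rw [hn]; group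
    rw [h1, hw v hv, mul_assoc, hcC _ (hfW v hv), inv_mul_cancel_left]
  have hnb : H75.cj n (B.b W') = B.b W := by
    rw [hn, ← cj_cj, hcj]
    exact hbx0.ix.inv (inv_mem c.2)
  have hnγ : Bx (Subgroup.centralizer (V : Set G)) (H75.cj n B.g) :=
    hld.gam.cj (T3.H79.norm_cent V hnN)
  have hbn : mulF (br V (B.b W)) (H75.cj n B.g) = H75.cj n B.g := by
    have h1 := congrArg (H75.cj n) hgam'
    rw [cj_mulF, T3.H79.cj_br hnN, hnb] at h1
    exact h1
  obtain ⟨m, hm, hmn⟩ := H97.orb_main (N := Subgroup.normalizer (V : Set G) ⊓ C)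
    (X := Subgroup.centralizer (V : Set G)) (le_inf hXN hXC)
    (inf_le_left.trans (T3.H79.norm_cent V)) hbx hld.gam hnγ hgam hbn
  have hmC : ∀ v ∈ W, B.i v * m = m * B.i v := by
    have h1 : m ∈ B.C W := by
      rw [← hC]
      exact hm.2
    exact (memC W m).1 h1
  have ht : m⁻¹ * n ∈ Tg B.i.range B.g := by
    rw [← hV]
    refine ⟨Subgroup.mul_mem _ (inv_mem hm.1) hnN, ?_⟩
    have h1 : H75.cj (m⁻¹ * n) B.g = B.g := by
      rw [← cj_cj, hmn, cj_inv_cj]
    exact (cj_eq_iff _ _).1 h1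
  obtain ⟨t, ht0⟩ : ∃ t : G, t = m⁻¹ * n := ⟨_, rfl⟩
  rw [← ht0] at ht
  have htv : ∀ v ∈ W', t * B.i v * t⁻¹ = B.i (f v) := by
    intro v hv
    have h1 : t * B.i v * t⁻¹ = m⁻¹ * (n * B.i v * n⁻¹) * m := by rw [ht0]; group
    rw [h1, hnv v hv, mul_assoc, hmC _ (hfW v hv), inv_mul_cancel_left]
  obtain ⟨σ, hσ, hσt⟩ := hB.act t ht
  refine ⟨σ, hσ, fun v hv => ?_, t, ht, hσt, ?_⟩
  · apply hB.inj
    rw [← htv v hv, hσt]
  · rw [memC]
    intro v hv
    have h1 : w * B.i v = B.i (f v) * w := by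
      rw [← hw v hv]
      group
    have h2 : t * B.i v = B.i (f v) * t := by
      rw [← htv v hv]
      group
    have h3 : B.i v * t⁻¹ = t⁻¹ * B.i (f v) := by
      have h4 : t⁻¹ * (t * B.i v) * t⁻¹ = t⁻¹ * (B.i (f v) * t) * t⁻¹ := by rw [h2]
      have e1 : t⁻¹ * (t * B.i v) * t⁻¹ = B.i v * t⁻¹ := by group
      have e2 : t⁻¹ * (B.i (f v) * t) * t⁻¹ = t⁻¹ * B.i (f v) := by group
      rw [e1, e2] at h4
      exact h4
    rw [← mul_assoc, h3, mul_assoc, ← h1, mul_assoc]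

end Pool.Agent.PP.SD.H87
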