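import Pool.Agent.ASD.Stmts6
import Pool.Agent.Helper88_AT3.Loc

/-!
# Squad ASD, row UNE: the block of `H` is determined by `(V, g)`
-/

open scoped BigOperators

set_option autoImplicit false

noncomputable section

namespace Pool.Agent.PP.SD.H87

open Pool.Agent.Helper51_AWC Pool.Agent.Helper79_WRA Pool.Agent.PP Pool.Agent.PP.KF
open Pool.Agent.PP.K9 Pool.Agent.PP.K9.H97 Pool.Agent.PP.H75 Pool.Agent.PP.T3 Pool.Agent.PP.SO
open Pool.Agent.PP.T3.H88

attribute [local instance] Ideal.Quotient.field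

/-- UNE -/
theorem une : UneStmt := by
  intro ℓ _ M _ hM H _ _ V g e e' he he'
  have hF : GoodF ℓ (FF M) := H50.fld ℓ Fact.out M hM
  have hbr : br V (mulF e e') = mulF (br V e) (br V e') :=
    H66.br_mulF hF he.tp.pg (H66.IsCl.inv he.blk.1.1 V) (H66.IsCl.inv he'.blk.1.1 V)
  have hne : mulF e e' ≠ 0 := by
    intro h0
    rw [h0, br_zero] at hbr
    refine he.gam.ne ?_
    calc g = mulF (br V e) (mulF (br V e') g) := by rw [he'.und, he.und]
      _ = mulF (mulF (br V e) (br V e')) g := (mulF_assoc _ _ _).symm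
      _ = 0 := by rw [← hbr, mulF_zero_left]
  have hcomm : mulF e e' = mulF e' e := H46.mulF_comm he.blk.1.1 e'
  have h1 : mulF e e' = e := (he.blk.2.2 e' he'.blk.1).resolve_right hne
  have h2 : mulF e' e = e' := (he'.blk.2.2 e he.blk.1).resolve_right (fun h => hne (hcomm.trans h))
  rw [← h1, hcomm, h2]

end Pool.Agent.PP.SD.H87
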